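import Pool.Agent.Q5.MS.Window3
import Pool.Agent.Results.MP_ec4e4b_nt.MeanProductOrder
import Pool.Agent.Results.MP_148101_nt.SharpWindows

/-!
# The order of vanishing of `L(H^{2m-1}(X), s)` at `s = m` from the windows of the Euler product at the centre

Let `X` be a smooth projective variety of dimension `d` over a number field `K`, given by homogeneous
polynomials over `𝓞 K`, `1 ≤ m`, `2 m - 1 ≤ 2 d`, and let `S` be a finite set of primes such that for `v ∉ S` the
eigenvalues `α_{v,1}, …, α_{v,N}` of the Frobenius on `H^{2m-1}(X)` are given by the numbers of points of `X` over the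
finite extensions of the residue field (by the theorem of Deligne this is so if `S` contains the primes of bad
reduction). Let `L(s) = ∏_{v ∉ S} ∏_j (1 - α_{v,j} q_v^{-s})⁻¹`, `Re s > m + 1/2`, and for `0 < l < 1` let

`W_l(y) = ∏_{v ∉ S, y^l < q_v ≤ y} |∏_j (1 - α_{v,j} q_v^{-m})|`

be the part in the window `(y^l, y]` of the reciprocal Euler product at the centre `s = m` (a finite product of
numbers determined by the numbers of points of `X`). Let
`M_l(Y) = (log Y)⁻¹ ∫_e^Y |log W_l(y) - ρ log (1/l)| dy/y`, `ρ` real.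

1. Nothing is assumed on `L`. If there is an `M` with `M_l(Y) ≤ M` for every `l` and all `Y ≥ Y_0(l)`, then `L` has an
   analytic continuation without zeros to the half plane `Re s > m` to the right of the centre, and
   `log |L(m + x)| / log x → ρ` for `x → 0+`: the order of vanishing at `s = m` is `ρ`.
2. Let `F` be a continuation of `L` to a half plane `Re s > m - η`, analytic except perhaps for a pole at `s = m`, of
   polynomial growth. Then `ord_{s=m} F = ρ` and `F` has no zeros with `Re s > m`, IF AND ONLY IF there is an `M` with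
   `M_l(Y) ≤ M` for every `l` and all `Y ≥ Y_0(l)`. Moreover the following are equivalent: `F` has no zeros with
   `Re s > m`; for ONE `l` the means `(log Y)⁻¹ ∫_e^Y |log W_l(y)| dy/y` are bounded; for ALL `l` they are bounded.
3. If moreover `∑_{√y < q_v ≤ y} (∑_j α_{v,j}²)/(2 q_v^{2m})` has a limit, then one exponent decides: `ord_{s=m} F = ρ`
   and `F` has no zeros with `Re s > m` if and only if `M_l(Y) → 0`, for any fixed `l`.

With `ρ = dim CH^m(X)_0 ⊗ ℚ`: the equality of Beilinson and Bloch together with the Riemann hypothesis for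
`H^{2m-1}(X)` says exactly that `log W_l(y) = ρ log (1/l) + O(1)` in logarithmic mean, uniformly in `l`.

For abelian varieties (`m = 1`) this is `WindowLawAbelian` of problem `MP_1d384c_nt`; the law for the whole product is
`MeanProductOrder` of problem `MP_ec4e4b_nt`, whose definitions are used. The library is `Pool.Agent.Q5.MS.Window3`,
`Pool.Agent.Q5.VA`, based on `Pool.Agent.TH270.MS` (helper270).
-/

set_option autoImplicit false

namespace Pool.Agent.Results.MP_b8021b_nt.CentralWindows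

open Filter Topology Set Complex NumberField IsDedekindDomain MeasureTheory
open Pool.Agent.Results.MP_ec4e4b_nt.MeanProductOrder (norm IsLocal Tempered OrderRH)

variable {K : Type} [Field K] [NumberField K] {N : ℕ}

/-- The primes `v` outside of `S` with `y^l < q_v ≤ y`. -/
def between (S : Finset (HeightOneSpectrum (𝓞 K))) (l y : ℝ) : Set (HeightOneSpectrum (𝓞 K)) :=
  {v | v ∉ S ∧ y ^ l < norm v ∧ (norm v : ℝ) ≤ y}

/-- `W_l(y) = ∏_{v ∉ S, y^l < q_v ≤ y} |∏_j (1 - α_{v,j} q_v^{-m})|`, a finite product. -/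
noncomputable def window (m : ℕ) (S : Finset (HeightOneSpectrum (𝓞 K)))
    (α : HeightOneSpectrum (𝓞 K) → Fin N → ℂ) (l y : ℝ) : ℝ :=
  ∏ᶠ v ∈ between S l y, ‖∏ j, (1 - α v j * (norm v : ℂ) ^ (-(m : ℂ)))‖

/-- `∑_{v ∉ S, √y < q_v ≤ y} (∑_j α_{v,j}²)/(2 q_v^{2m})`, a finite sum of real numbers. -/
noncomputable def squares (m : ℕ) (S : Finset (HeightOneSpectrum (𝓞 K)))
    (α : HeightOneSpectrum (𝓞 K) → Fin N → ℂ) (y : ℝ) : ℝ :=
  ∑ᶠ (v : {v : HeightOneSpectrum (𝓞 K) // v ∉ S}) (_ : √y < norm v.1 ∧ (norm v.1 : ℝ) ≤ y),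
    (∑ j, α v.1 j ^ 2).re / (2 * ((norm v.1 : ℝ) ^ m) ^ 2)

/-- `(log Y)⁻¹ ∫_e^Y |φ(y)| dy/y`. -/
noncomputable def logMean (φ : ℝ → ℝ) (Y : ℝ) : ℝ := (∫ y in Real.exp 1..Y, |φ y| / y) / Real.log Y

/-- `log W_l(y) = ρ log (1/l) + O(1)` in logarithmic mean, uniformly in `l`. -/
def UniformLaw (m : ℕ) (S : Finset (HeightOneSpectrum (𝓞 K)))
    (α : HeightOneSpectrum (𝓞 K) → Fin N → ℂ) (ρ : ℝ) : Prop :=
  ∃ M : ℝ, ∀ l : ℝ, 0 < l → l < 1 → ∀ᶠ Y : ℝ in atTop,
    logMean (fun y => Real.log (window m S α l y) - ρ * Real.log (1 / l)) Y ≤ M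

/-- `F` has no zeros with `Re s > m`. -/
def NoZeros (m : ℕ) (F : ℂ → ℂ) : Prop := ∀ s : ℂ, (m : ℝ) < s.re → F s ≠ 0

/-- `F` is an analytic continuation without zeros of the `L`-function `∏_{v ∉ S} ∏_j (1 - α_{v,j} q_v^{-s})⁻¹`
(`Re s > m + 1/2`) to the half plane `Re s > m`. -/
def Continues (m : ℕ) (S : Finset (HeightOneSpectrum (𝓞 K)))
    (α : HeightOneSpectrum (𝓞 K) → Fin N → ℂ) (F : ℂ → ℂ) : Prop :=
  (∀ s : ℂ, (m : ℝ) < s.re → DifferentiableAt ℂ F s ∧ F s ≠ 0) ∧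
  ∀ s : ℂ, (m : ℝ) + 1 / 2 < s.re →
    HasProd (fun v : {v : HeightOneSpectrum (𝓞 K) // v ∉ S} =>
      (∏ j, (1 - α v.1 j * (norm v.1 : ℂ) ^ (-s)))⁻¹) (F s)

/-! ### translation -/

open Pool.Agent.Results.MP_ec4e4b_nt.MeanProductOrder (frob centre cpow_m tempered)
open Pool.Agent.TH942.ES (Sys cv cP LE zv xv)
open Pool.Agent.TH270.MS (Mc)
open Pool.Agent.Q5.VA (NS aD Frob)
open Pool.Agent.Q5.MS (Pv Sq WV window_bdd window_order window_pv cont_unif)
open Pool.Agent.Results.MP_148101_nt.SharpWindows (pv_window)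

variable {n : ℕ} {X : Set (MvPolynomial (Fin n) (𝓞 K))} {d m : ℕ}
  {S : Finset (HeightOneSpectrum (𝓞 K))} {α : HeightOneSpectrum (𝓞 K) → Fin N → ℂ} {F : ℂ → ℂ}

theorem log_window (hm : 1 ≤ m) (hd : 2 * m - 1 ≤ 2 * d) (h : IsLocal X d (2 * m - 1) S α)
    (l y : ℝ) : Real.log (window m S α l y) =
      ∑ᶠ (v : {v : HeightOneSpectrum (𝓞 K) // v ∉ S}) (_ : y ^ l < NS S v ∧ (NS S v : ℝ) ≤ y),
        cv (NS S) (aD (2 * m - 1) S α) v := by
  classical
  have E := (frob h).sys hd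
  have hcv : ∀ v : {v : HeightOneSpectrum (𝓞 K) // v ∉ S},
      cv (NS S) (aD (2 * m - 1) S α) v =
        Real.log ‖∏ j, (1 - α v.1 j * (norm v.1 : ℂ) ^ (-(m : ℂ)))‖ := by
    intro v
    rw [(frob h).cv_eq v, ← centre hm, cpow_m]
  have hne : ∀ v : {v : HeightOneSpectrum (𝓞 K) // v ∉ S},
      ‖∏ j, (1 - α v.1 j * (norm v.1 : ℂ) ^ (-(m : ℂ)))‖ ≠ 0 := by
    intro v
    rw [norm_ne_zero_iff, Finset.prod_ne_zero_iff]
    intro j _ h0
    have h1 := (frob h).lt_one v j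
    rw [← centre hm, cpow_m, ← sub_eq_zero.1 h0, norm_one] at h1
    exact lt_irrefl _ h1
  have hfin : (between S l y).Finite := by
    have h1 := (E.fin_le y).image Subtype.val
    refine h1.subset fun v hv => ?_
    exact ⟨⟨v, hv.1⟩, hv.2.2, rfl⟩
  have hfin2 : {v : {v : HeightOneSpectrum (𝓞 K) // v ∉ S} | y ^ l < NS S v ∧
      (NS S v : ℝ) ≤ y}.Finite := (E.fin_le y).subset fun v hv => hv.2
  have h2 : window m S α l y =
      ∏ v ∈ hfin.toFinset, ‖∏ j, (1 - α v j * (norm v : ℂ) ^ (-(m : ℂ)))‖ :=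
    finprod_mem_eq_finite_toFinset_prod _ hfin
  have h4 : (∑ᶠ (v : {v : HeightOneSpectrum (𝓞 K) // v ∉ S})
      (_ : y ^ l < NS S v ∧ (NS S v : ℝ) ≤ y), cv (NS S) (aD (2 * m - 1) S α) v) =
      ∑ v ∈ hfin2.toFinset, cv (NS S) (aD (2 * m - 1) S α) v :=
    finsum_mem_eq_finite_toFinset_sum (fun v => cv (NS S) (aD (2 * m - 1) S α) v) hfin2
  rw [h2, Real.log_prod, h4]
  · refine Finset.sum_bij' (i := fun v hv => ⟨v, ((Set.Finite.mem_toFinset _).1 hv).1⟩)
      (j := fun v _ => v.1) ?_ ?_ ?_ ?_ ?_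
    · intro v hv
      rw [Set.Finite.mem_toFinset] at hv ⊢
      exact hv.2
    · intro v hv
      rw [Set.Finite.mem_toFinset] at hv ⊢
      exact ⟨v.2, hv⟩
    · intro v hv
      rfl
    · intro v hv
      rfl
    · intro v hv
      exact (hcv ⟨v, ((Set.Finite.mem_toFinset _).1 hv).1⟩).symm
  · intro v hv
    rw [Set.Finite.mem_toFinset] at hv
    exact hne ⟨v, hv.1⟩

theorem wv_eq (hm : 1 ≤ m) (hd : 2 * m - 1 ≤ 2 * d) (h : IsLocal X d (2 * m - 1) S α) (ρ : ℝ)
    {l y : ℝ} (hl1 : l < 1) (hy : Real.exp 1 ≤ y) : WV (NS S) (aD (2 * m - 1) S α) ρ l y =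
      Real.log (window m S α l y) - ρ * Real.log (1 / l) := by
  have hy1 : (1 : ℝ) ≤ y := by linarith [Real.add_one_le_exp 1]
  have E := (frob h).sys hd
  unfold WV
  rw [pv_window E hl1 hy1, log_window hm hd h, one_div, Real.log_inv]
  ring

theorem mean_int (hm : 1 ≤ m) (hd : 2 * m - 1 ≤ 2 * d) (h : IsLocal X d (2 * m - 1) S α) (ρ : ℝ)
    {l : ℝ} (hl1 : l < 1) {Y : ℝ} (hY : Real.exp 1 ≤ Y) :
    ∫ y in Real.exp 1..Y, |WV (NS S) (aD (2 * m - 1) S α) ρ l y| / y =
      ∫ y in Real.exp 1..Y, |Real.log (window m S α l y) - ρ * Real.log (1 / l)| / y := by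
  refine intervalIntegral.integral_congr fun y hy => ?_
  rw [uIcc_of_le hY] at hy
  show |WV (NS S) (aD (2 * m - 1) S α) ρ l y| / y =
    |Real.log (window m S α l y) - ρ * Real.log (1 / l)| / y
  rw [wv_eq hm hd h ρ hl1 hy.1]

theorem le_iff (hm : 1 ≤ m) (hd : 2 * m - 1 ≤ 2 * d) (h : IsLocal X d (2 * m - 1) S α) (ρ B : ℝ)
    {l : ℝ} (hl1 : l < 1) :
    (∀ᶠ Y : ℝ in atTop, ∫ y in Real.exp 1..Y, |WV (NS S) (aD (2 * m - 1) S α) ρ l y| / y ≤
      B * Real.log Y) ↔
    ∀ᶠ Y : ℝ in atTop,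
      logMean (fun y => Real.log (window m S α l y) - ρ * Real.log (1 / l)) Y ≤ B := by
  refine eventually_congr ?_
  filter_upwards [eventually_ge_atTop (Real.exp 1)] with Y hY
  have hlog : 0 < Real.log Y := by
    have := Pool.Agent.TH270.MS.one_le_log hY
    linarith
  unfold logMean
  rw [div_le_iff₀ hlog, mean_int hm hd h ρ hl1 hY]

theorem squares_eq (hm : 1 ≤ m) : squares m S α = Sq (NS S) (aD (2 * m - 1) S α) := by
  funext y
  unfold squares Sq
  refine finsum_congr fun v => finsum_congr fun _ => ?_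
  have h1 := Q5.VA.cP_D (S := S) (α := α) (m : ℝ) (centre hm) (v, 1)
  rw [h1]
  norm_num
  rfl

/-- **The order of vanishing at the centre from the windows.** -/
theorem result (K : Type) [Field K] [NumberField K] (n : ℕ)
    (X : Set (MvPolynomial (Fin n) (𝓞 K))) (d m N : ℕ) (hm : 1 ≤ m) (hd : 2 * m - 1 ≤ 2 * d)
    (S : Finset (HeightOneSpectrum (𝓞 K))) (α : HeightOneSpectrum (𝓞 K) → Fin N → ℂ)
    (hα : IsLocal X d (2 * m - 1) S α) :
    (∀ ρ : ℝ, UniformLaw m S α ρ → ∃ F : ℂ → ℂ, Continues m S α F ∧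
      Tendsto (fun x : ℝ => Real.log ‖F (m + x)‖ / Real.log x) (𝓝[>] 0) (𝓝 ρ)) ∧
    ∀ F : ℂ → ℂ, Tempered m S α F →
      (∀ ρ : ℝ, OrderRH m F ρ ↔ UniformLaw m S α ρ) ∧
      List.TFAE [
        NoZeros m F,
        ∃ l : ℝ, 0 < l ∧ l < 1 ∧ ∃ B : ℝ, ∀ᶠ Y : ℝ in atTop,
          logMean (fun y => Real.log (window m S α l y)) Y ≤ B,
        ∀ l : ℝ, 0 < l → l < 1 → ∃ B : ℝ, ∀ᶠ Y : ℝ in atTop,
          logMean (fun y => Real.log (window m S α l y)) Y ≤ B] ∧
      (∀ c : ℝ, Tendsto (squares m S α) atTop (𝓝 c) → ∀ ρ l : ℝ, 0 < l → l < 1 →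
        (OrderRH m F ρ ↔
          Tendsto (logMean fun y => Real.log (window m S α l y) - ρ * Real.log (1 / l)) atTop
            (𝓝 0))) := by
  have hmc : ((m : ℝ) : ℂ) = (m : ℂ) := by push_cast; rfl
  have E := (frob hα).sys hd
  refine ⟨fun ρ h => ?_, fun F hF => ?_⟩
  · obtain ⟨M, hM⟩ := h
    obtain ⟨G, h2, h3, h4⟩ := cont_unif E ((frob hα).real hd) (ρ := ρ) (M := M)
      (fun l hl hl1 => (le_iff hm hd hα ρ M hl1).2 (hM l hl hl1))
    refine ⟨fun s => G (s - m), ⟨fun s hs => ?_, fun s hs => ?_⟩, h4.congr fun x => ?_⟩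
    · obtain ⟨h5, h6⟩ := h2 (s - m) (by
        rw [Complex.sub_re, ← hmc, Complex.ofReal_re]
        linarith)
      exact ⟨DifferentiableAt.comp s (f := fun s : ℂ => s - m) h5 (by fun_prop), h6⟩
    · have hs' : 1 / 2 < (s - (m : ℂ)).re := by
        rw [Complex.sub_re, ← hmc, Complex.ofReal_re]
        linarith
      have h5 := E.hasProd (s := s - m) hs'
      have h6 : (fun v : {v : HeightOneSpectrum (𝓞 K) // v ∉ S} =>
          (∏ j, (1 - α v.1 j * (norm v.1 : ℂ) ^ (-s)))⁻¹) =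
          fun v => ∏ i, (1 - zv (NS S) (aD (2 * m - 1) S α) v i * xv (NS S) v (s - m))⁻¹ := by
        funext v
        have h7 := Q5.VA.factorD (i := 2 * m - 1) (S := S) (α := α) v s
        rw [← centre hm, hmc] at h7
        exact h7.symm
      rw [h6]
      simp only
      rw [h3 _ hs', E.LE_eq hs']
      exact h5
    · simp only
      rw [add_sub_cancel_left]
  · obtain ⟨G₀, k, κ, η, C, H⟩ := Q5.VA.temp_data E ((frob hα).real hd) (tempered hm hF)
    have hz : (∀ s : ℂ, 0 < s.re → F ((m : ℝ) + s) ≠ 0) ↔ NoZeros m F := Q5.VA.zeros_shiftC F m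
    have h0 : ∀ ρ : ℝ, OrderRH m F ρ ↔ ((∀ s : ℂ, 0 < s.re → F ((m : ℝ) + s) ≠ 0) ∧
        ∃ e : ℤ, ρ = e ∧ meromorphicOrderAt (fun s => F ((m : ℝ) + s)) 0 = e) := by
      intro ρ
      rw [Q5.VA.mero_shiftC, Q5.VA.zeros_shiftC, hmc]
      exact and_comm
    refine ⟨fun ρ => ?_, ?_, fun c hc ρ l hl hl1 => ?_⟩
    · rw [h0, window_order H ρ]
      exact exists_congr fun M => forall_congr' fun l => forall_congr' fun _ =>
        forall_congr' fun hl1 => le_iff hm hd hα ρ M hl1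
    · have t := window_bdd H
      rw [hz] at t
      have e1 : ∀ l B : ℝ, l < 1 → ((∀ᶠ Y : ℝ in atTop,
          ∫ y in Real.exp 1..Y, |WV (NS S) (aD (2 * m - 1) S α) 0 l y| / y ≤ B * Real.log Y) ↔
          ∀ᶠ Y : ℝ in atTop, logMean (fun y => Real.log (window m S α l y)) Y ≤ B) := by
        intro l B hl1
        have h := le_iff hm hd hα 0 B hl1
        simp only [zero_mul, sub_zero] at h
        exact h
      have t1 : NoZeros m F ↔ ∃ l : ℝ, 0 < l ∧ l < 1 ∧ ∃ B : ℝ, ∀ᶠ Y : ℝ in atTop,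
          ∫ y in Real.exp 1..Y, |WV (NS S) (aD (2 * m - 1) S α) 0 l y| / y ≤
            B * Real.log Y := t.out 0 3
      have t2 : NoZeros m F ↔ ∀ l : ℝ, 0 < l → l < 1 → ∃ B : ℝ, ∀ᶠ Y : ℝ in atTop,
          ∫ y in Real.exp 1..Y, |WV (NS S) (aD (2 * m - 1) S α) 0 l y| / y ≤
            B * Real.log Y := t.out 0 4
      tfae_have 1 ↔ 2 := by
        rw [t1]
        exact exists_congr fun l => and_congr_right fun _ => and_congr_right fun hl1 =>
          exists_congr fun B => e1 l B hl1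
      tfae_have 1 ↔ 3 := by
        rw [t2]
        exact forall_congr' fun l => forall_congr' fun _ => forall_congr' fun hl1 =>
          exists_congr fun B => e1 l B hl1
      tfae_finish
    · have hc' : Tendsto (Sq (NS S) (aD (2 * m - 1) S α)) atTop (𝓝 c) := by
        rw [← squares_eq hm]
        exact hc
      rw [h0, ← window_pv H ρ hc' hl hl1]
      refine tendsto_congr' ?_
      filter_upwards [eventually_ge_atTop (Real.exp 1)] with Y hY
      unfold logMean
      rw [mean_int hm hd hα ρ hl1 hY]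

end Pool.Agent.Results.MP_b8021b_nt.CentralWindows
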