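import Pool.Agent.Q5.AP.Win
import Pool.Agent.Results.MP_b8021b_nt.CentralWindows

/-!
# The order of vanishing at the centre and the exact mean square of ONE window of the Euler product

Let `X` be a smooth projective variety of dimension `d` over a number field `K`, given by homogeneous
polynomials over `𝓞 K`, `1 ≤ m`, `2 m - 1 ≤ 2 d`, and let `S` be a finite set of primes such that for `v ∉ S` the
eigenvalues `α_{v,1}, …, α_{v,N}` of the Frobenius on `H^{2m-1}(X)` are given by the numbers of points of `X` over the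
finite extensions of the residue field. Let `F` be a continuation of `L(s) = ∏_{v ∉ S} ∏_j (1 - α_{v,j} q_v^{-s})⁻¹`
to a half plane `Re s > m - η`, analytic except perhaps for a pole at `s = m`, of polynomial growth, and let `μ_t` be the
order of vanishing of `F` at `m + it`. Fix ONE exponent `0 < l < 1` and let

`W_l(y) = ∏_{v ∉ S, y^l < q_v ≤ y} |∏_j (1 - α_{v,j} q_v^{-m})|`,  `W*_l(y) = P*(y)/P*(y^l)`,
`P*(y) = exp (- ∑_{v ∉ S, q_v^k ≤ y} tr (Frob_v^k | H^{2m-1}(X)) / (k q_v^{mk}))`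

be the parts in the window `(y^l, y]` of the reciprocal Euler product at the centre, over the primes and over the
prime powers. For every real `ρ` the following are equivalent:

* `ord_{s=m} F = ρ`, and `F` has no zeros with `Re s > m`;
* `(log Y)⁻¹ ∫_e^Y (log y · (log W*_l(y) - ρ log (1/l)))² dy/y` is bounded for large `Y`;
* the sum `V_l = ∑_{t ≠ 0} (μ_t - μ_{t/l})²/t²` converges and these means tend to `V_l`.

In this case for every real `t ≠ 0` the means `(log Y)⁻¹ ∫_e^Y log y · (log W*_l(y) - ρ log (1/l)) y^(-it) dy/y` tend to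
`-i (μ_t - μ_{t/l})/t` (and to `0` for `t = 0`), and `μ_t = ∑_{j < n} (μ_{t l^j} - μ_{t l^{j+1}})` for all large `n`: the
numbers of points of `X` over the residue fields determine the zeros of `L(H^{2m-1}(X), s)` on the critical line with
their multiplicities. Moreover `V_l = 0` only if `F` has no zeros `m + it`, `t ≠ 0`.

The same holds for `W_l` if `log y · (q(y) - q(y^l)) → 0` with `q(y) = ∑_{√y < q_v ≤ y} tr (Frob_v²)/(2 q_v^{2m})`.

With `ρ = rank CH^m_hom(X)`: the rank equality of Beilinson and Bloch (for the continuation `F`) and the Riemann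
hypothesis hold together if and only if for one `l` the formula `W*_l(y) ≈ (1/l)^ρ` has an error `O(1/log y)` in square
mean, and then its mean square is known exactly. No regulator, period or leading coefficient enters. For abelian
varieties and `m = 1`: `ExactWindowsAbelian` of problem `MP_1d384c_nt`; the logarithmic mean (error `o(1)`):
`CentralWindows` of this problem.
-/

set_option autoImplicit false

namespace Pool.Agent.Results.MP_b8021b_nt.ExactWindowsCentral

open Filter Topology Set Complex NumberField IsDedekindDomain MeasureTheory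
open Pool.Agent.Results.MP_ec4e4b_nt.MeanProductOrder (norm IsLocal Tempered OrderRH productStar)
open Pool.Agent.Results.MP_b8021b_nt.CentralWindows (between window squares)

variable {K : Type} [Field K] [NumberField K] {N : ℕ}

/-- `W*_l(y) = P*(y)/P*(y^l)`. -/
noncomputable def windowStar (m : ℕ) (S : Finset (HeightOneSpectrum (𝓞 K)))
    (α : HeightOneSpectrum (𝓞 K) → Fin N → ℂ) (l y : ℝ) : ℝ :=
  productStar m S α y / productStar m S α (y ^ l)

/-- `log W*_l(y) - ρ log (1/l)` -/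
noncomputable def errStar (m : ℕ) (S : Finset (HeightOneSpectrum (𝓞 K)))
    (α : HeightOneSpectrum (𝓞 K) → Fin N → ℂ) (ρ l y : ℝ) : ℝ :=
  Real.log (windowStar m S α l y) - ρ * Real.log (1 / l)

/-- `log W_l(y) - ρ log (1/l)` -/
noncomputable def err (m : ℕ) (S : Finset (HeightOneSpectrum (𝓞 K)))
    (α : HeightOneSpectrum (𝓞 K) → Fin N → ℂ) (ρ l y : ℝ) : ℝ :=
  Real.log (window m S α l y) - ρ * Real.log (1 / l)

/-- The order of vanishing of `F` at `m + it`. -/
noncomputable def mult (m : ℕ) (F : ℂ → ℂ) (t : ℝ) : ℕ := (analyticOrderAt F (m + t * I)).toNat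

/-- `(log Y)⁻¹ ∫_e^Y (log y · δ(y))² dy/y`. -/
noncomputable def meanSquare (δ : ℝ → ℝ) (Y : ℝ) : ℝ :=
  (∫ y in Real.exp 1..Y, (Real.log y * δ y) ^ 2 / y) / Real.log Y

/-- `(log Y)⁻¹ ∫_e^Y (log y · δ(y)) y^(-it) dy/y`. -/
noncomputable def coefficient (δ : ℝ → ℝ) (t Y : ℝ) : ℂ :=
  (∫ y in Real.exp 1..Y, ((Real.log y * δ y : ℝ) : ℂ) * (y : ℂ) ^ (-(t * I)) / (y : ℂ)) /
    (Real.log Y : ℂ)

/-- `∫_e^Y (log y · δ(y))² dy/y ≤ B log Y` for some `B` and all large `Y`. -/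
def BoundedMeanSquare (δ : ℝ → ℝ) : Prop := ∃ B : ℝ, ∀ᶠ Y : ℝ in atTop,
  ∫ y in Real.exp 1..Y, (Real.log y * δ y) ^ 2 / y ≤ B * Real.log Y

/-- `V_l = ∑_{t ≠ 0} (μ_t - μ_{t/l})²/t²` converges (the term with `t = 0` is `0`), it is the limit of the mean
squares, and it is `0` only if `F` has no zeros `m + it`, `t ≠ 0`. -/
def WindowSquareLaw (m : ℕ) (F : ℂ → ℂ) (l : ℝ) (δ : ℝ → ℝ) : Prop :=
  ∃ V : ℝ, HasSum (fun t : ℝ => (((mult m F t : ℝ) - mult m F (t / l)) / t) ^ 2) V ∧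
    Tendsto (meanSquare δ) atTop (𝓝 V) ∧ (V = 0 ↔ ∀ t : ℝ, t ≠ 0 → mult m F t = 0)

/-- For every real `t` the means of `log y · δ(y) y^(-it)` tend to `-i (μ_t - μ_{t/l})/t` (`0` for `t = 0`), and these
numbers determine the multiplicities `μ_t`, `t ≠ 0`. -/
def ReadsZeros (m : ℕ) (F : ℂ → ℂ) (l : ℝ) (δ : ℝ → ℝ) : Prop :=
  (∀ t : ℝ, Tendsto (coefficient δ t) atTop
    (𝓝 (-((((mult m F t : ℂ) - mult m F (t / l)) * I) / t)))) ∧
  ∀ t : ℝ, t ≠ 0 → ∀ᶠ n : ℕ in atTop, (mult m F t : ℝ) =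
    ∑ j ∈ Finset.range n, ((mult m F (t * l ^ j) : ℝ) - mult m F (t * l ^ (j + 1)))

/-- The criterion for one window, with the exact mean square and the zeros. -/
def Criterion (m : ℕ) (F : ℂ → ℂ) (ρ l : ℝ) (δ : ℝ → ℝ) : Prop :=
  List.TFAE [OrderRH m F ρ, BoundedMeanSquare δ, WindowSquareLaw m F l δ] ∧
    (OrderRH m F ρ → ReadsZeros m F l δ)

/-! ### translation -/

open Pool.Agent.Results.MP_ec4e4b_nt.MeanProductOrder (frob centre cpow_m tempered log_star star_pos)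
open Pool.Agent.Results.MP_b8021b_nt.CentralWindows (wv_eq squares_eq)
open Pool.Agent.Q5.VA (NS aD)
open Pool.Agent.TH270.MS (Mc)
open Pool.Agent.Q5.MS (WL WV Sq)
open Pool.Agent.Q5.AP (WinLaw win_pack win_packP mc_iso telescope win_pos)

theorem wl_eq' {m : ℕ} (hm : 1 ≤ m) (S : Finset (HeightOneSpectrum (𝓞 K)))
    (α : HeightOneSpectrum (𝓞 K) → Fin N → ℂ) (ρ : ℝ) {l : ℝ} (y : ℝ) :
    errStar m S α ρ l y = -WL (NS S) (aD (2 * m - 1) S α) ρ l y := by
  unfold errStar windowStar WL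
  rw [Real.log_div (star_pos y).ne' (star_pos (y ^ l)).ne', log_star hm, log_star hm, one_div,
    Real.log_inv]
  ring

/-- from the general statement -/
theorem criterion_of {m : ℕ} {F : ℂ → ℂ} {ρ l : ℝ} {δ : ℝ → ℝ} (hl : 0 < l) (hl1 : l < 1)
    (hiso : ∃ r : ℝ, 0 < r ∧ ∀ t : ℝ, t ≠ 0 → |t| < r → mult m F t = 0)
    (h : WinLaw (OrderRH m F ρ) (mult m F) l δ) : Criterion m F ρ l δ := by
  obtain ⟨r, hr, hiso⟩ := hiso
  obtain ⟨t, rd⟩ := h
  refine ⟨?_, fun hp => ⟨rd hp, fun t' ht' => telescope hl hl1 hr hiso ht'⟩⟩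
  tfae_have 1 ↔ 2 := t.out 0 1
  tfae_have 1 ↔ 3 := by
    refine (t.out 0 2).trans (exists_congr fun V => ?_)
    constructor
    · rintro ⟨h1, h2⟩
      exact ⟨h1, h2, (win_pos hl hl1 hr hiso h1).2⟩
    · rintro ⟨h1, h2, -⟩
      exact ⟨h1, h2⟩
  tfae_finish

/-- **The order of vanishing at the centre and the exact mean square of one window.** -/
theorem result (K : Type) [Field K] [NumberField K] (n : ℕ)
    (X : Set (MvPolynomial (Fin n) (𝓞 K))) (d m N : ℕ) (hm : 1 ≤ m) (hd : 2 * m - 1 ≤ 2 * d)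
    (S : Finset (HeightOneSpectrum (𝓞 K))) (α : HeightOneSpectrum (𝓞 K) → Fin N → ℂ)
    (hα : IsLocal X d (2 * m - 1) S α) (F : ℂ → ℂ) (hF : Tempered m S α F)
    (l : ℝ) (hl : 0 < l) (hl1 : l < 1) :
    (∀ ρ : ℝ, Criterion m F ρ l (errStar m S α ρ l)) ∧
    (Tendsto (fun y : ℝ => Real.log y * (squares m S α y - squares m S α (y ^ l))) atTop (𝓝 0) →
      ∀ ρ : ℝ, Criterion m F ρ l (err m S α ρ l)) := by
  have hmc : ((m : ℝ) : ℂ) = (m : ℂ) := by push_cast; rfl
  have E := (frob hα).sys hd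
  obtain ⟨G₀, k, κ, η, C, H⟩ := Q5.VA.temp_data E ((frob hα).real hd) (tempered hm hF)
  have h0 : ∀ ρ : ℝ, OrderRH m F ρ ↔ ((∀ s : ℂ, 0 < s.re → F ((m : ℝ) + s) ≠ 0) ∧
      ∃ e : ℤ, ρ = e ∧ meromorphicOrderAt (fun s => F ((m : ℝ) + s)) 0 = e) := by
    intro ρ
    rw [Q5.VA.mero_shiftC, Q5.VA.zeros_shiftC, hmc]
    exact and_comm
  have hmu : ∀ t : ℝ, Pool.Agent.Q5.BP.mu (fun s => F ((m : ℝ) + s)) t = mult m F t := by
    intro t
    rw [Pool.Agent.Q5.BP.mu_shift F ((m : ℝ) : ℂ) t, hmc]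
    rfl
  have hiso : ∃ r : ℝ, 0 < r ∧ ∀ t : ℝ, t ≠ 0 → |t| < r → mult m F t = 0 := by
    obtain ⟨r, hr, h⟩ := mc_iso H
    exact ⟨r, hr, fun t ht htr => by rw [← hmu t]; exact h t ht htr⟩
  refine ⟨fun ρ => criterion_of hl hl1 hiso
    (win_pack H ρ hl hl1 (h0 ρ) hmu fun y _ => wl_eq' hm S α ρ y), fun hS ρ => ?_⟩
  refine criterion_of hl hl1 hiso (win_packP H ρ hl hl1 (h0 ρ) hmu ?_ fun y hy => ?_)
  · rw [← squares_eq hm]
    exact hS
  · exact (wv_eq hm hd hα ρ hl1 hy).symm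

end Pool.Agent.Results.MP_b8021b_nt.ExactWindowsCentral
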