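import Pool.Agent.Q282.UK.Num

/-!
# MP_b8021b_nt: the Beilinson-Bloch conjecture and systems of bilinear equations
-/

set_option autoImplicit false

open CategoryTheory Limits AlgebraicGeometry Pool.Agent.Y116.UV Pool.Agent.Q282.UM
  Pool.Agent.Q282.UK

namespace Pool.Agent.Results.MP_b8021b_nt.BilinearSystems

universe v u

/-- **The Beilinson-Bloch conjecture and systems of bilinear equations.** Let `C` be the category of
effective Chow motives over `ℚ` with integral coefficients (contravariant), with the twist
`tw M = M(-1)`, and let `W(X)` be the weight complex of the scheme `X` of finite type over `ℚ`.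

* Let `cyc m` be the functor on `C` with `cyc m (M(X)) = CH^m_hom(X)`. The groups `CH^m_hom(X)` are
  finitely generated for all smooth projective varieties `X` over `ℚ` and all `m` if and only if
  the groups `Hⁿ(cyc m (W(Y)))` are finitely generated for all `m`, `n` and all `Y ⊂ 𝔸^{a+b}` given
  by systems of bilinear equations `∑_{(i, j) ∈ E_l} x_i y_j = 0`, `l = 1, …, c`, with
  coefficients `0` and `1`.
* Let `ord m K` be the order at `s = m` of the alternating product of the functions
  `L(H^{2m-1}(K^i), s)` of the terms of the complex `K`. The conjecture (finite generation, and rank of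
  `CH^m_hom(X)` equal to the order at `s = m` of `L(H^{2m-1}(X), s)`) is true for all smooth
  projective `X` and all `m` if and only if for all these `Y` and all `m` the groups
  `Hⁿ(cyc m (W(Y)))` are finitely generated and the alternating sum of their ranks is
  `ord m (W(Y))`. -/
theorem result {C : Type u} [Category.{v} C] [Preadditive C] [HasZeroObject C]
    [HasBinaryBiproducts C] [HasFiniteBiproducts C] (D : Complexes ℚ C) (tw : C ⥤ C) [tw.Additive]
    (hD : IsTwisted D tw) :
    (∀ (cyc : ℕ → C ⥤ ModuleCat.{0} ℤ) (h : ∀ m, (cyc m).Additive),
      ForMotives D (fun M => ∀ m, Module.Finite ℤ ((cyc m).obj M)) ↔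
        ForBinarySystems D (FiniteK cyc h)) ∧
    ∀ (E : Ranks C ℤ) (hE : IsRanks tw E),
      ForMotives D (RankIsOrder E) ↔ ForBinarySystems D (RankIsOrderK hE) :=
  ⟨fun cyc h => finite_binary presents_rat hD cyc h, fun _ hE => rank_binary presents_rat hD hE⟩

end Pool.Agent.Results.MP_b8021b_nt.BilinearSystems
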