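import Pool.Agent.Q5.VA.Poly

/-!
# A numerical form of the order of vanishing in the conjecture of Beilinson and Bloch

Let `X` be a smooth projective variety of dimension `d` over a number field `k`, given by homogeneous
polynomials with coefficients in `𝓞 k`, let `1 ≤ m`, `2 m - 1 ≤ 2 d`, and let `S` be a finite set of primes
such that for the primes `v` not in `S` the polynomial

`P_v(T) = det (1 - Frob_v T | H^{2m-1}(X)) = ∏ (1 - α_j T)`

is given by the numbers of the points of `X` over the finite extensions of the residue field of `v`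
(the theorem of Deligne: this is so if `S` contains the primes of bad reduction). Let `F` be a meromorphic
continuation of `L_S(H^{2m-1}(X), s) = ∏_{v ∉ S} P_v(q_v^{-s})⁻¹` to the complex plane. Nothing is assumed
about the zeros and the poles of `F`, and no functional equation is used. The complete `L`-function
`F(s) ∏_{v ∈ S} P_v(q_v^{-s})⁻¹` has the same order as `F` at `s = m` as soon as `P_v(q_v^{-m}) ≠ 0` for the
primes `v ∈ S` (this holds if the weights of the inertia invariants are at most `2 m - 1`).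

For real `τ` put

`W_τ(Y) = ∑_{v ∉ S} log |P_v(q_v^{-m})| / Γ(1 + (1 + iτ) log q_v / log Y)`,

an absolutely convergent series for `Y > 1`. These are smoothed forms of the logarithms of the products
`∏_{q_v ≤ Y} P_v(q_v^{-m})` (for an elliptic curve and `m = 1` these are the products of Birch and
Swinnerton-Dyer `∏ N_v / q_v`).

* If `F` has no zeros and no poles on the ray `{m + (1 + iτ) x : x > 0}`, then
  `W_τ(Y) = r log log Y + O(1)` with the order `r` of `F` at `m`. For every `B` this is the case for all but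
  finitely many `τ` in `[-B, B]`.
* In the other directions, let `m + (1 + iτ) x` be the last zero or pole, `e` its order: then
  `W_τ(Y) ∼ e ∫_0^∞ (Y^{xu} - 1) du / (u Γ(1 + u))`, and `|Re W_τ(Y)| ≥ exp (Y^c)` for `c < x` and large `Y`.

So for an integer `R`, for example `R = rank CH^m_hom(X)`, the equality `ord_{s=m} L(H^{2m-1}(X), s) = R`
holds if and only if `Re W_τ(Y_n) / log log Y_n → R` for one `τ` and one sequence `Y_n → ∞`, and then
`W_τ(Y) = R log log Y + O(1)` in all free directions. This is the analytic side of the conjecture in terms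
of the numbers of points of `X` over finite fields, for every `X` and every `m`.

The definition of the Frobenius eigenvalues by the point counts is that of `Pool.Agent.TH958.BV.Defs`
(helper958); the uniqueness of the eigenvalues is from `Pool.Agent.W353.PV.Eig`.
-/

set_option autoImplicit false

open Filter Topology Set Complex NumberField IsDedekindDomain Polynomial

namespace Pool.Agent.Results.MP_b8021b_nt.NumericalOrder

variable {n : ℕ}

/-- The set `X` of homogeneous polynomials over a ring `R` in `n` variables defines a projective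
scheme over `R`.  For a field `κ` with `q` elements and a homomorphism `R → κ` this is `(q - 1)`
times the number of the points of `X` with coordinates in `κ`: the number of the nonzero solutions
of the equations. -/
noncomputable def cone {R : Type} [CommRing R] (X : Set (MvPolynomial (Fin n) R)) {κ : Type}
    [Field κ] (φ : R →+* κ) : ℕ :=
  Nat.card {u : Fin n → κ // u ≠ 0 ∧ ∀ f ∈ X, MvPolynomial.eval₂ φ u f = 0}

variable {k : Type} [Field k] [NumberField k]

/-- `α_1, …, α_N` are the eigenvalues of the geometric Frobenius at the prime `v` of `k` on `H^i(X)`,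
for a variety `X` of dimension `d`: there are finite multisets `β_j` of complex numbers of absolute
value `q_v^{j/2}`, `j = 0, …, 2d`, with `β_i = {α_1, …, α_N}`, such that for every finite extension
`κ` of the residue field of `v`, of degree `e`, the number of the points of `X` with coordinates in
`κ` is `∑ (-1)^j ∑_{z ∈ β_j} z^e`.  By the theorem of Deligne such `β_j` exist at the primes of good
reduction, with `N` the `i`-th Betti number of `X`; they are unique. -/
def IsFrobenius (X : Set (MvPolynomial (Fin n) (𝓞 k))) (d i : ℕ)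
    (v : HeightOneSpectrum (𝓞 k)) {N : ℕ} (α : Fin N → ℂ) : Prop :=
  ∃ β : ℕ → Multiset ℂ, β i = Finset.univ.val.map α ∧
    (∀ j, ∀ z ∈ β j, ‖z‖ = (Ideal.absNorm v.asIdeal : ℝ) ^ ((j : ℝ) / 2)) ∧
    ∀ (κ : Type) [Field κ] [Finite κ] (φ : 𝓞 k →+* κ) (e : ℕ), RingHom.ker φ = v.asIdeal →
      Nat.card κ = Ideal.absNorm v.asIdeal ^ e →
      (cone X φ : ℂ) = ((Ideal.absNorm v.asIdeal : ℂ) ^ e - 1) *
          ∑ j ∈ Finset.range (2 * d + 1), (-1 : ℂ) ^ j * ((β j).map (fun z => z ^ e)).sum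

/-- The norm `q_v`. -/
noncomputable def norm (v : HeightOneSpectrum (𝓞 k)) : ℕ := Ideal.absNorm v.asIdeal

/-- For all primes `v` outside of the finite set `S`, `P v` is the polynomial
`det (1 - Frob_v T | H^i(X))`, of degree `N`. -/
def IsLocal (X : Set (MvPolynomial (Fin n) (𝓞 k))) (d i N : ℕ)
    (S : Finset (HeightOneSpectrum (𝓞 k))) (P : HeightOneSpectrum (𝓞 k) → ℂ[X]) : Prop :=
  ∀ v : HeightOneSpectrum (𝓞 k), v ∉ S → ∃ α : Fin N → ℂ, IsFrobenius X d i v α ∧
    ∀ z : ℂ, (P v).eval z = ∏ j, (1 - α j * z)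

/-- `F` is a meromorphic function on the complex plane which for `Re s > m + 1/2` is the incomplete
`L`-function `∏_{v ∉ S} P_v(q_v^{-s})⁻¹`. -/
def IsLFunction (m : ℕ) (S : Finset (HeightOneSpectrum (𝓞 k))) (P : HeightOneSpectrum (𝓞 k) → ℂ[X])
    (F : ℂ → ℂ) : Prop :=
  (∀ s : ℂ, MeromorphicAt F s) ∧ ∀ s : ℂ, (m : ℝ) + 1 / 2 < s.re →
    HasProd (fun v : {v : HeightOneSpectrum (𝓞 k) // v ∉ S} =>
      ((P v.1).eval ((norm v.1 : ℂ) ^ (-s)))⁻¹) (F s)

/-- The product of `F` with Euler factors `B_v(q_v^{-s})⁻¹` for the primes `v` in `S`. -/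
noncomputable def complete (S : Finset (HeightOneSpectrum (𝓞 k)))
    (B : HeightOneSpectrum (𝓞 k) → ℂ[X]) (F : ℂ → ℂ) (s : ℂ) : ℂ :=
  F s * ∏ v ∈ S, ((B v).eval ((norm v : ℂ) ^ (-s)))⁻¹

/-- The term of `W_τ(Y)` at `v`. -/
noncomputable def term (m : ℕ) (S : Finset (HeightOneSpectrum (𝓞 k)))
    (P : HeightOneSpectrum (𝓞 k) → ℂ[X]) (τ Y : ℝ) (v : {v : HeightOneSpectrum (𝓞 k) // v ∉ S}) : ℂ :=
  (Real.log ‖(P v.1).eval ((norm v.1 : ℂ) ^ (-(m : ℂ)))‖ : ℂ) /
    Complex.Gamma (1 + (1 + τ * I) * (Real.log (norm v.1) / Real.log Y))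

/-- `W_τ(Y)`. -/
noncomputable def W (m : ℕ) (S : Finset (HeightOneSpectrum (𝓞 k)))
    (P : HeightOneSpectrum (𝓞 k) → ℂ[X]) (τ Y : ℝ) : ℂ := ∑' v, term m S P τ Y v

/-- `F` has neither zeros nor poles on the ray `{m + (1 + iτ) x : x > 0}`. -/
def Free (m : ℕ) (F : ℂ → ℂ) (τ : ℝ) : Prop :=
  ∀ x : ℝ, 0 < x → meromorphicOrderAt F (m + (1 + τ * I) * x) = 0

/-- `∫_0^∞ (e^{yu} - 1) / (u Γ(1 + u)) du`. -/
noncomputable def grow (y : ℝ) : ℝ :=
  ∫ u in Set.Ioi (0 : ℝ), (Real.exp (y * u) - 1) / (u * Real.Gamma (1 + u))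

variable {X : Set (MvPolynomial (Fin n) (𝓞 k))} {d m N : ℕ}
  {S : Finset (HeightOneSpectrum (𝓞 k))} {P : HeightOneSpectrum (𝓞 k) → ℂ[X]} {F : ℂ → ℂ}

theorem centre (hm : 1 ≤ m) : (((2 * m - 1 : ℕ) : ℝ) + 1) / 2 = m := by
  rw [Nat.cast_sub (by omega)]
  push_cast
  ring

theorem edge (hm : 1 ≤ m) : ((2 * m - 1 : ℕ) : ℝ) / 2 + 1 = m + 1 / 2 := by
  rw [Nat.cast_sub (by omega)]
  push_cast
  ring

theorem ext (hm : 1 ≤ m) (hd : 2 * m - 1 ≤ 2 * d) (h : IsLocal X d (2 * m - 1) N S P)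
    (hF : IsLFunction m S P F) :
    Q5.VA.ExtAt (m : ℝ) (Q5.VA.Nv (Q5.VA.pS S)) (Q5.VA.al X d (2 * m - 1) N (Q5.VA.pS S)) F := by
  have h1 := Q5.VA.Loc.ext (X := X) (d := d) (i := 2 * m - 1) (N := N) (S := S) (P := P) hd h
    hF.1 (fun s hs => hF.2 s (by rw [← edge hm]; exact hs))
  rw [centre hm] at h1
  exact h1

theorem term_eq (hm : 1 ≤ m) (hd : 2 * m - 1 ≤ 2 * d) (h : IsLocal X d (2 * m - 1) N S P)
    (τ Y : ℝ) (v : {v : HeightOneSpectrum (𝓞 k) // v ∉ S}) : term m S P τ Y v =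
    Q5.RN.ccv (Q5.VA.Nv (Q5.VA.pS S)) (Q5.VA.al X d (2 * m - 1) N (Q5.VA.pS S)) v *
      Q5.RN.wt τ (Real.log (H921R2.TatePole.nm v.1) / Real.log Y) := by
  have h0 : (((((2 * m - 1 : ℕ) : ℝ) + 1) / 2 : ℝ) : ℂ) = m := by
    rw [centre hm]
    push_cast
    rfl
  have h1 : Q5.RN.ccv (Q5.VA.Nv (Q5.VA.pS S)) (Q5.VA.al X d (2 * m - 1) N (Q5.VA.pS S)) v =
      (Real.log ‖(P v.1).eval ((norm v.1 : ℂ) ^ (-(m : ℂ)))‖ : ℂ) := by
    have h2 := Q5.VA.Loc.cv (X := X) (d := d) (i := 2 * m - 1) (N := N) (S := S) (P := P) hd h v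
    rw [h0] at h2
    exact (Q5.RN.ccv_ofSys (Q5.VA.Loc.sys hd h) v).trans (congrArg (fun x : ℝ => (x : ℂ)) h2)
  have h2 : Q5.RN.wt τ (Real.log (H921R2.TatePole.nm v.1) / Real.log Y) =
      (Complex.Gamma (1 + (1 + τ * I) * (Real.log (norm v.1) / Real.log Y)))⁻¹ := by
    unfold Q5.RN.wt Q5.RN.dir
    push_cast
    rfl
  unfold term
  rw [div_eq_mul_inv, ← h2, ← h1]

theorem W_eq (hm : 1 ≤ m) (hd : 2 * m - 1 ≤ 2 * d) (h : IsLocal X d (2 * m - 1) N S P)
    (τ Y : ℝ) : W m S P τ Y =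
    Q5.RN.cmean (Q5.VA.Nv (Q5.VA.pS S)) (Q5.VA.al X d (2 * m - 1) N (Q5.VA.pS S)) τ
      (Real.log Y) :=
  tsum_congr fun v => term_eq hm hd h τ Y v

/-- the order of the complete function -/
theorem order_complete (hF : MeromorphicAt F m) {B : HeightOneSpectrum (𝓞 k) → ℂ[X]}
    (hB : ∀ v ∈ S, (B v).eval ((norm v : ℂ) ^ (-(m : ℂ))) ≠ 0) :
    meromorphicOrderAt (complete S B F) m = meromorphicOrderAt F m := by
  have hN : ∀ v : HeightOneSpectrum (𝓞 k), (norm v : ℂ) ≠ 0 := by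
    intro v
    have h1 := H921R2.TatePole.two_le_nm v
    have h2 : (norm v : ℂ) = (H921R2.TatePole.nm v : ℂ) := rfl
    rw [h2]
    exact_mod_cast (by omega : H921R2.TatePole.nm v ≠ 0)
  have h1 : ∀ v ∈ S, AnalyticAt ℂ (fun s : ℂ => ((B v).eval ((norm v : ℂ) ^ (-s)))⁻¹) m := by
    intro v hv
    refine AnalyticAt.inv ?_ (hB v hv)
    have h2 : AnalyticAt ℂ (fun s : ℂ => (norm v : ℂ) ^ (-s)) m := by
      have h3 : Differentiable ℂ (fun s : ℂ => (norm v : ℂ) ^ (-s)) := by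
        intro s
        exact (differentiableAt_id.neg).const_cpow (Or.inl (hN v))
      exact h3.analyticAt _
    have h4 : Differentiable ℂ (fun z : ℂ => (B v).eval z) := (B v).differentiable
    exact (h4.analyticAt _).comp h2
  have h2 : AnalyticAt ℂ (fun s : ℂ => ∏ v ∈ S, ((B v).eval ((norm v : ℂ) ^ (-s)))⁻¹) m :=
    Finset.analyticAt_fun_prod S h1
  have h3 : meromorphicOrderAt (fun s : ℂ => ∏ v ∈ S, ((B v).eval ((norm v : ℂ) ^ (-s)))⁻¹) m = 0 := by
    rw [h2.meromorphicOrderAt_eq, h2.analyticOrderAt_eq_zero.2 ?_]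
    · rfl
    · exact Finset.prod_ne_zero_iff.2 fun v hv => inv_ne_zero (hB v hv)
  have h4 : meromorphicOrderAt (complete S B F) m = meromorphicOrderAt F m +
      meromorphicOrderAt (fun s : ℂ => ∏ v ∈ S, ((B v).eval ((norm v : ℂ) ^ (-s)))⁻¹) m :=
    meromorphicOrderAt_mul hF h2.meromorphicAt
  rw [h4, h3, add_zero]

/-- **A numerical form of the order of vanishing, for all varieties over all number fields.** -/
theorem result (k : Type) [Field k] [NumberField k] (n : ℕ)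
    (X : Set (MvPolynomial (Fin n) (𝓞 k))) (d m N : ℕ) (hm : 1 ≤ m) (hd : 2 * m - 1 ≤ 2 * d)
    (S : Finset (HeightOneSpectrum (𝓞 k))) (P : HeightOneSpectrum (𝓞 k) → ℂ[X])
    (hP : IsLocal X d (2 * m - 1) N S P) (F : ℂ → ℂ) (hF : IsLFunction m S P F) :
    (∀ τ Y : ℝ, 1 < Y → Summable fun v => ‖term m S P τ Y v‖) ∧
    (∀ B : ℝ, {τ : ℝ | |τ| ≤ B ∧ ¬ Free m F τ}.Finite) ∧
    (∃ r : ℤ, meromorphicOrderAt F m = r ∧ ∀ τ : ℝ, Free m F τ →
      ∃ M : ℝ, ∀ᶠ Y : ℝ in atTop, ‖W m S P τ Y - r * Real.log (Real.log Y)‖ ≤ M) ∧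
    (∀ τ : ℝ, ¬ Free m F τ → ∃ (x : ℝ) (e : ℤ), 0 < x ∧ e ≠ 0 ∧
      meromorphicOrderAt F (m + (1 + τ * I) * x) = e ∧
      (∀ y : ℝ, x < y → meromorphicOrderAt F (m + (1 + τ * I) * y) = 0) ∧
      Tendsto (fun Y : ℝ => W m S P τ Y / grow (x * Real.log Y)) atTop (𝓝 e) ∧
      ∀ c < x, ∀ᶠ Y : ℝ in atTop, Real.exp (Y ^ c) ≤ |(W m S P τ Y).re|) ∧
    (∀ B : HeightOneSpectrum (𝓞 k) → ℂ[X],
      (∀ v ∈ S, (B v).eval ((norm v : ℂ) ^ (-(m : ℂ))) ≠ 0) →
      meromorphicOrderAt (complete S B F) m = meromorphicOrderAt F m) ∧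
    ∀ R : ℤ, List.TFAE [
      meromorphicOrderAt F m = R,
      ∃ (τ : ℝ) (Y : ℕ → ℝ), Tendsto Y atTop atTop ∧
        Tendsto (fun n => (W m S P τ (Y n)).re / Real.log (Real.log (Y n))) atTop (𝓝 R),
      ∀ τ : ℝ, Free m F τ →
        ∃ M : ℝ, ∀ᶠ Y : ℝ in atTop, ‖W m S P τ Y - R * Real.log (Real.log Y)‖ ≤ M] := by
  have E := Q5.RN.ofSys (Q5.VA.Loc.sys hd hP)
  have hmc : (((m : ℝ) : ℝ) : ℂ) = (m : ℂ) := by push_cast; rfl
  obtain ⟨h1, h2, h3, h4⟩ := Q5.VA.numerical E (ext hm hd hP hF) (W := W m S P)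
    (W_eq hm hd hP)
  have hfree : ∀ τ, Q5.VA.FreeAt (m : ℝ) F τ ↔ Free m F τ := by
    intro τ
    unfold Q5.VA.FreeAt Free
    rw [hmc]
  simp only [hmc, hfree] at h1 h2 h3 h4
  refine ⟨fun τ Y hY => ?_, h1, h2, h3, fun B hB => order_complete (hF.1 m) hB, h4⟩
  have := E.mean_summable τ (Real.log_pos hY)
  simp only [term_eq hm hd hP]
  exact this

end Pool.Agent.Results.MP_b8021b_nt.NumericalOrder
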